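import Pool.Agent.Helper15.EP.St
import Pool.Agent.Helper66.FC.M_GCC
import Pool.Agent.Helper36.FC.M_KLC

set_option autoImplicit false

/-!
Module VEX of project EP (MP_16cbc0_nt).
-/

open Polynomial

namespace Pool.Agent.Helper36.EP

open Pool.Agent.Helper15.FC Pool.Agent.Helper15.EP

noncomputable section

variable {F : Type} [Field F] [Fintype F]

/-- the totients of the divisors add up to the number of residues -/
theorem sum_phi (g : F[X]) (hg : g.Monic) : ∑ c ∈ Dv g, phi c = Fintype.card F ^ g.natDegree := by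
  classical
  rw [← card_Lw F g.natDegree]
  unfold phi
  rw [← Finset.card_sigma]
  refine Finset.card_nbij (fun p => (g / p.1) * p.2) ?_ ?_ ?_
  · rintro ⟨c, y⟩ hp
    rw [Finset.mem_coe, Finset.mem_sigma, Finset.mem_filter, mem_Lw] at hp
    obtain ⟨hc, hy, -⟩ := hp
    obtain ⟨c1, c2, c3⟩ := Pool.Agent.Helper36.FC.div_facts hg hc
    simp only at hy c1 c2 c3 ⊢
    rw [Finset.mem_coe, mem_Lw]
    by_cases hy0 : y = 0
    · rw [hy0, mul_zero, degree_zero]
      exact WithBot.bot_lt_coe _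
    · rw [degree_eq_natDegree hy0, Nat.cast_lt] at hy
      rw [degree_eq_natDegree (mul_ne_zero c2.ne_zero hy0), Nat.cast_lt,
        natDegree_mul c2.ne_zero hy0]
      have h1 : g.natDegree = c.natDegree + (g / c).natDegree := by
        conv_lhs => rw [← c3]
        exact c1.natDegree_mul c2
      omega
  · rintro ⟨c, y⟩ hp ⟨c', y'⟩ hp' heq
    rw [Finset.mem_coe, Finset.mem_sigma, Finset.mem_filter, mem_Lw] at hp hp'
    obtain ⟨hc, -, hy⟩ := hp
    obtain ⟨hc', -, hy'⟩ := hp'
    obtain ⟨c1, c2, c3⟩ := Pool.Agent.Helper36.FC.div_facts hg hc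
    obtain ⟨d1, d2, d3⟩ := Pool.Agent.Helper36.FC.div_facts hg hc'
    simp only at hy hy' c1 c2 c3 d1 d2 d3 heq
    have hcc : g / c = g / c' := by
      refine eq_of_monic_of_associated c2 d2 (associated_of_dvd_dvd ?_ ?_)
      · obtain ⟨a, b, hab⟩ := hy'
        have h1 : g / c' = a * ((g / c') * y') + b * (c' * (g / c')) := by
          calc g / c' = (a * y' + b * c') * (g / c') := by rw [hab, one_mul]
            _ = _ := by ring
        rw [h1, ← heq, d3, ← c3]
        refine dvd_add ?_ ?_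
        · exact Dvd.dvd.mul_left (dvd_mul_right _ _) _
        · refine Dvd.dvd.mul_left ?_ _
          rw [c3]
          conv_rhs => rw [← c3]
          exact dvd_mul_left _ _
      · obtain ⟨a, b, hab⟩ := hy
        have h1 : g / c = a * ((g / c) * y) + b * (c * (g / c)) := by
          calc g / c = (a * y + b * c) * (g / c) := by rw [hab, one_mul]
            _ = _ := by ring
        rw [h1, heq, c3]
        refine dvd_add ?_ ?_
        · exact Dvd.dvd.mul_left (dvd_mul_right _ _) _
        · refine Dvd.dvd.mul_left ?_ _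
          conv_rhs => rw [← d3]
          exact dvd_mul_left _ _
    have hc2 : c = c' := by
      have h1 : c * (g / c) = c' * (g / c) := by rw [c3, hcc, d3]
      exact mul_right_cancel₀ c2.ne_zero h1
    subst hc2
    have hyy : y = y' := mul_left_cancel₀ c2.ne_zero heq
    rw [hyy]
  · intro x hx
    rw [Finset.mem_coe, mem_Lw] at hx
    obtain ⟨G, hG, hGg, hGx, a, b, hab⟩ := Pool.Agent.Helper66.FC.exists_mgcd g x hg
    obtain ⟨c, hc⟩ := hGg
    obtain ⟨y, hy⟩ := hGx
    have hcm : c.Monic := hG.of_mul_monic_left (by rw [← hc]; exact hg)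
    refine ⟨⟨c, y⟩, ?_, ?_⟩
    · rw [Finset.mem_coe, Finset.mem_sigma, Finset.mem_filter, mem_Lw, mem_Dv hg.ne_zero]
      simp only
      refine ⟨⟨hcm, ⟨G, by rw [hc, mul_comm]⟩⟩, ?_, ?_⟩
      · by_cases hy0 : y = 0
        · rw [hy0, degree_zero]
          exact WithBot.bot_lt_coe _
        · have h1 : g.natDegree = G.natDegree + c.natDegree := by
            rw [hc]; exact hG.natDegree_mul hcm
          have h2 : x.natDegree = G.natDegree + y.natDegree := by
            rw [hy]; exact natDegree_mul hG.ne_zero hy0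
          have hx0 : x ≠ 0 := by rw [hy]; exact mul_ne_zero hG.ne_zero hy0
          rw [degree_eq_natDegree hx0, Nat.cast_lt] at hx
          rw [degree_eq_natDegree hy0, Nat.cast_lt]
          omega
      · refine ⟨b, a, ?_⟩
        have h1 : G * (b * y + a * c) = G * 1 := by
          rw [mul_one]
          conv_rhs => rw [← hab, hc, hy]
          ring
        exact mul_left_cancel₀ hG.ne_zero h1
    · have h1 : g / c = G := Pool.Agent.Helper36.FC.div_of_mul hcm.ne_zero (by rw [hc, mul_comm])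
      change g / c * y = x
      rw [h1, hy]

open scoped Classical in
/-- the number of the monic `f` of degree `n` with `d | f B` -/
theorem count_dvd (B d : F[X]) (hd : d.Monic) (n : ℕ) (hn : d.natDegree ≤ n) :
    qr F ^ d.natDegree * ∑ f ∈ Mn F n, (if d ∣ f * B then (1 : ℝ) else 0) =
      qr F ^ n * ∑ c ∈ Dv d, (if c ∣ B then (phi c : ℝ) else 0) := by
  obtain ⟨G, hG, hGd, hGB, a, b, hab⟩ := Pool.Agent.Helper66.FC.exists_mgcd d B hd
  obtain ⟨d', hd'⟩ := hGd
  obtain ⟨B', hB'⟩ := hGB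
  have hd'm : d'.Monic := hG.of_mul_monic_left (by rw [← hd']; exact hd)
  have hcop : IsCoprime d' B' := by
    refine ⟨a, b, ?_⟩
    have h1 : G * (a * d' + b * B') = G * 1 := by
      rw [mul_one]
      conv_rhs => rw [← hab, hd', hB']
      ring
    exact mul_left_cancel₀ hG.ne_zero h1
  have hiff : ∀ f : F[X], d ∣ f * B ↔ d' ∣ f := by
    intro f
    rw [hd', hB', mul_left_comm, mul_dvd_mul_iff_left hG.ne_zero]
    exact ⟨fun h => hcop.dvd_of_dvd_mul_right h, fun h => h.mul_right _⟩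
  have h1 : ∑ f ∈ Mn F n, (if d ∣ f * B then (1 : ℝ) else 0) =
      ∑ f ∈ Mn F n, (if d' ∣ f then (1 : ℝ) else 0) := by
    refine Finset.sum_congr rfl fun f _ => ?_
    by_cases h : d' ∣ f
    · rw [if_pos h, if_pos ((hiff f).2 h)]
    · rw [if_neg h, if_neg (fun h2 => h ((hiff f).1 h2))]
  have hdeg : d.natDegree = G.natDegree + d'.natDegree := by
    rw [hd']; exact hG.natDegree_mul hd'm
  rw [h1, Pool.Agent.Helper66.FC.card_mult hd'm n, if_pos (by omega)]
  have h2 : ∑ c ∈ Dv d, (if c ∣ B then (phi c : ℝ) else 0) = ∑ c ∈ Dv G, (phi c : ℝ) := by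
    rw [← Finset.sum_filter]
    refine Finset.sum_congr ?_ fun _ _ => rfl
    ext c
    rw [Finset.mem_filter, mem_Dv hd.ne_zero, mem_Dv hG.ne_zero]
    constructor
    · rintro ⟨⟨h2, h3⟩, h4⟩
      refine ⟨h2, ?_⟩
      rw [← hab]
      exact dvd_add (h3.mul_right _) (h4.mul_right _)
    · rintro ⟨h2, h3⟩
      exact ⟨⟨h2, h3.trans ⟨d', hd'⟩⟩, h3.trans ⟨B', hB'⟩⟩
  have h3 : ∑ c ∈ Dv G, (phi c : ℝ) = qr F ^ G.natDegree := by
    have h4 := sum_phi G hG
    unfold qr
    exact_mod_cast h4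
  rw [h2, h3, ← pow_add, ← pow_add]
  congr 1
  omega

open scoped Classical in
/-- the sum of the Ramanujan sums `c_e(f B)` over the monic `f` of degree `n` -/
theorem sum_cram (hMOB : StMOB) (B e : F[X]) (he : e.Monic) (n : ℕ) (hn : e.natDegree ≤ n) :
    ∑ f ∈ Mn F n, (cram e (f * B) : ℝ) = if e ∣ B then qr F ^ n * (phi e : ℝ) else 0 := by
  have h1 : ∀ f ∈ Mn F n, (cram e (f * B) : ℝ) =
      ∑ d ∈ Dv e, (mob (e / d) : ℝ) * (qr F ^ d.natDegree * (if d ∣ f * B then (1 : ℝ) else 0)) := by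
    intro f _
    unfold cram
    push_cast
    rw [Finset.sum_filter]
    refine Finset.sum_congr rfl fun d _ => ?_
    split_ifs
    · unfold qr
      ring
    · simp
  rw [Finset.sum_congr rfl h1, Finset.sum_comm]
  have h2 : ∀ d ∈ Dv e, ∑ f ∈ Mn F n, (mob (e / d) : ℝ) *
      (qr F ^ d.natDegree * (if d ∣ f * B then (1 : ℝ) else 0)) =
      qr F ^ n * ((mob (e / d) : ℝ) * ∑ c ∈ Dv d, (if c ∣ B then (phi c : ℝ) else 0)) := by
    intro d hd
    have hd' := (mem_Dv he.ne_zero).1 hd
    have h3 : d.natDegree ≤ n := (natDegree_le_of_dvd hd'.2 he.ne_zero).trans hn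
    rw [← Finset.mul_sum, ← Finset.mul_sum, count_dvd B d hd'.1 n h3]
    ring
  rw [Finset.sum_congr rfl h2, ← Finset.mul_sum,
    Pool.Agent.Helper36.FC.inversion hMOB e he (fun c => if c ∣ B then (phi c : ℝ) else 0)]
  split_ifs
  · rfl
  · rw [mul_zero]

theorem hVEX (hGPR : StGPR) (hMOB : StMOB) (hPHI : StPHI) : StVEX := by
  intro F _ _ l y e he hy
  classical
  have hphi : (0 : ℝ) < phi e := by
    have h1 := (hPHI F e he).1
    exact_mod_cast h1
  have h1 : ∑ b ∈ Tup F y, (cram e (∏ j, b j) : ℝ) =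
      ∑ p ∈ Mn F (y 0) ×ˢ Tup F (fun j : Fin l => y j.succ),
        (cram e (p.1 * ∏ j, p.2 j) : ℝ) := by
    refine Finset.sum_nbij' (fun b => (b 0, fun j => b j.succ))
      (fun p => (Fin.cons p.1 p.2 : Fin (l + 1) → F[X])) ?_ ?_ ?_ ?_ ?_
    · intro b hb
      rw [Tup, Fintype.mem_piFinset] at hb
      rw [Finset.mem_product, Tup, Fintype.mem_piFinset]
      exact ⟨hb 0, fun j => hb j.succ⟩
    · intro p hp
      rw [Finset.mem_product, Tup, Fintype.mem_piFinset] at hp
      rw [Tup, Fintype.mem_piFinset]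
      intro j
      refine Fin.cases ?_ (fun j => ?_) j
      · rw [Fin.cons_zero]
        exact hp.1
      · rw [Fin.cons_succ]
        exact hp.2 j
    · intro b _
      exact Fin.cons_self_tail b
    · intro p _
      simp
    · intro b _
      rw [Fin.prod_univ_succ]
  have h2 : ∑ b ∈ Tup F y, (cram e (∏ j, b j) : ℝ) =
      qr F ^ (y 0) * (phi e : ℝ) * (Dc e (fun j : Fin l => y j.succ) : ℝ) := by
    rw [h1, Finset.sum_product_right]
    have h3 : ∀ b ∈ Tup F (fun j : Fin l => y j.succ), ∑ f ∈ Mn F (y 0),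
        (cram e (f * ∏ j, b j) : ℝ) =
        if e ∣ ∏ j, b j then qr F ^ (y 0) * (phi e : ℝ) else 0 := by
      intro b _
      exact sum_cram hMOB _ e he (y 0) (hy 0)
    rw [Finset.sum_congr rfl h3, ← Finset.sum_filter, Finset.sum_const, nsmul_eq_mul, Dc]
    ring
  have h3 := hGPR F l (fun j : Fin l => y j.succ) e he (fun i => hy i.succ)
  rw [Vl, h2, Fin.sum_univ_succ, pow_add, mul_assoc (qr F ^ y 0) (qr F ^ _) (Gk l e), ← h3]
  field_simp

end

end Pool.Agent.Helper36.EP
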